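import Pool.Agent.helper54.UG.Spec3

/-! Row ug:KBT. -/

set_option autoImplicit false

namespace Pool.Agent.UG

open Matrix Pool.Agent.H48SL

theorem KBT (hZD : ZD_stmt) (hCLA : CLA_stmt) (hTRV : TRV_stmt) (hSTQ : STQ_stmt)
    (hG0T : G0T_stmt) : KBT_stmt := by
  intro n hn H X 𝔟 hZ hF hk hA' hL' hst
  have hZb : ZDense (Hb H) := hZD n hn H X hZ hF
  obtain ⟨hA, hL⟩ := hSTQ n H 𝔟 hk hA' hL'
  have hfi : (Hb H).FiniteIndex := by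
    refine hG0T n hn (Hb H) hZb _ hA hL ?_
    intro χ
    obtain ⟨Y, hY, hY0, hYu⟩ := hst χ
    exact ⟨dn Y, ⟨Y, hY, rfl⟩, hY0, hYu⟩
  obtain ⟨τ, h1, h2, h3⟩ := hCLA n hn H X hZ hF hfi
  exact hTRV n (by omega) H hZ hfi τ h1 h2 h3

end Pool.Agent.UG
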